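import Mathlib

/-!
Block E of project LD part 2 (helper76): descent of linear equations, size of the field.
-/

set_option autoImplicit false

namespace Pool.Agent.Lib_helper76.LD

open Finset

theorem descend_pr (F : Type) [Field F] [Algebra (ZMod 2) F] [Module.Finite (ZMod 2) F] (n c : ℕ)
    (φ : (Fin n → F) →ₗ[F] (Fin c → F)) :
    ∃ ψ : (Fin n → ZMod 2) →ₗ[ZMod 2] (Fin (Module.finrank (ZMod 2) F * c) → ZMod 2),
      ∀ x, ψ x = 0 → φ (fun i => algebraMap (ZMod 2) F (x i)) = 0 := by
  classical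
  let e : Module.Basis (Fin (Module.finrank (ZMod 2) F)) (ZMod 2) F :=
    Module.finBasis (ZMod 2) F
  let ι : (Fin n → ZMod 2) →ₗ[ZMod 2] (Fin n → F) :=
    { toFun := fun x i => algebraMap (ZMod 2) F (x i)
      map_add' := fun x y => by
        funext i
        simp
      map_smul' := fun c x => by
        funext i
        simp [Algebra.smul_def] }
  refine ⟨{ toFun := fun x i => e.repr (φ (ι x) (finProdFinEquiv.symm i).2) (finProdFinEquiv.symm i).1
            map_add' := fun x y => by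
              funext i
              simp
            map_smul' := fun a x => by
              funext i
              have h1 : φ (ι (a • x)) = a • φ (ι x) := by
                rw [map_smul]
                have : (a • ι x : Fin n → F) = (algebraMap (ZMod 2) F a) • ι x := by
                  funext j
                  simp [Algebra.smul_def]
                rw [this, map_smul]
                funext j
                simp [Algebra.smul_def]
              rw [h1]
              simp }, ?_⟩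
  intro x hx
  funext j
  have key : e.repr (φ (ι x) j) = 0 := by
    ext t
    have := congrFun hx (finProdFinEquiv (t, j))
    simp only [LinearMap.coe_mk, AddHom.coe_mk, Equiv.symm_apply_apply, Pi.zero_apply] at this
    simpa using this
  have h0 : φ (ι x) j = 0 := by
    simpa using key
  exact h0

theorem field_size_pr (d L : ℕ) : ∃ k : ℕ, 1 ≤ k ∧
    k ≤ 16 * (d + 2) ^ 2 * (Nat.log 2 (L + 1) + 1) ∧
    (k ^ (d - 2) * (2 ^ d * L + 1) + 1) * d + 1 < 2 ^ k := by
  set m := Nat.log 2 (L + 1) + 1 with hm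
  have hm1 : 1 ≤ m := by omega
  refine ⟨16 * (d + 2) ^ 2 * m, ?_, le_rfl, ?_⟩
  · have : 0 < 16 * (d + 2) ^ 2 * m := by positivity
    omega
  set k := 16 * (d + 2) ^ 2 * m with hk
  have hk1 : 1 ≤ k := by
    have : 0 < 16 * (d + 2) ^ 2 * m := by positivity
    omega
  have hL : L + 1 < 2 ^ m := Nat.lt_pow_succ_log_self (by norm_num) _
  have h2d : d + 1 ≤ 2 ^ d := Nat.lt_two_pow_self
  have hkle : k ≤ 2 ^ (4 + 2 * (d + 2) + m) := by
    have h1 : d + 2 ≤ 2 ^ (d + 2) := Nat.lt_two_pow_self.le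
    have h2 : m ≤ 2 ^ m := Nat.lt_two_pow_self.le
    calc k = 2 ^ 4 * (d + 2) ^ 2 * m := by rw [hk]; norm_num
      _ ≤ 2 ^ 4 * (2 ^ (d + 2)) ^ 2 * 2 ^ m := by gcongr
      _ = 2 ^ (4 + 2 * (d + 2) + m) := by rw [← pow_mul, ← pow_add, ← pow_add]; ring_nf
  have hkd : k ^ (d - 2) ≤ 2 ^ ((4 + 2 * (d + 2) + m) * d) := by
    calc k ^ (d - 2) ≤ k ^ d := Nat.pow_le_pow_right hk1 (by omega)
      _ ≤ (2 ^ (4 + 2 * (d + 2) + m)) ^ d := by gcongr
      _ = 2 ^ ((4 + 2 * (d + 2) + m) * d) := by rw [← pow_mul]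
  have hA : 2 ^ d * L + 1 ≤ 2 ^ d * 2 ^ m := by
    have h1 : 1 ≤ 2 ^ d := Nat.one_le_two_pow
    nlinarith
  set P := 2 ^ ((4 + 2 * (d + 2) + m) * d) * (2 ^ d * 2 ^ m) with hP
  have hP1 : 1 ≤ P := by
    have : 0 < P := by positivity
    omega
  have hB : k ^ (d - 2) * (2 ^ d * L + 1) ≤ P := Nat.mul_le_mul hkd hA
  have hC : (k ^ (d - 2) * (2 ^ d * L + 1) + 1) * d + 1 ≤ 2 * P * 2 ^ d := by
    calc (k ^ (d - 2) * (2 ^ d * L + 1) + 1) * d + 1 ≤ (P + P) * d + 2 * P := by
          have := Nat.mul_le_mul_right d (Nat.add_le_add hB hP1)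
          omega
      _ = 2 * P * (d + 1) := by ring
      _ ≤ 2 * P * 2 ^ d := by gcongr
  refine lt_of_le_of_lt hC ?_
  have hE : 2 * P * 2 ^ d = 2 ^ (1 + ((4 + 2 * (d + 2) + m) * d + (d + m)) + d) := by
    rw [hP]
    simp only [pow_add, pow_one]
  rw [hE]
  apply Nat.pow_lt_pow_right (by norm_num)
  rw [hk]
  nlinarith [Nat.mul_le_mul_left (d * d) hm1, Nat.mul_le_mul_left d hm1]

end Pool.Agent.Lib_helper76.LD
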